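import Mathlib

/-! Divisibility of `a ^ h - 1` by powers of `d`. -/

set_option autoImplicit false

namespace Pool.Agent.R332.EX

theorem core_case {p : ℕ} (hp : p.Prime) {s : ℤ} (hs1 : s ≠ 1)
    (H : ∀ h : ℕ, emultiplicity (p : ℤ) (s ^ h - 1) =
      emultiplicity (p : ℤ) (s - 1) + emultiplicity (p : ℤ) (h : ℤ)) :
    ∃ k0 : ℕ, ∀ h : ℕ, 0 < h → ∀ M : ℕ, ((p : ℤ) ^ M ∣ s ^ h - 1) → (p : ℤ) ^ (M - k0) ∣ (h : ℤ) := by
  have hfin : ∀ z : ℤ, z ≠ 0 → FiniteMultiplicity (p : ℤ) z := by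
    intro z hz
    rw [Int.finiteMultiplicity_iff]
    exact ⟨by rw [Int.natAbs_natCast]; exact hp.ne_one, hz⟩
  have h1 := hfin (s - 1) (sub_ne_zero.mpr hs1)
  refine ⟨multiplicity (p : ℤ) (s - 1), fun h hh M hM => ?_⟩
  have h2 := hfin (h : ℤ) (by exact_mod_cast hh.ne')
  have h3 := pow_dvd_iff_le_emultiplicity.mp hM
  rw [H h, h1.emultiplicity_eq_multiplicity, h2.emultiplicity_eq_multiplicity] at h3
  have h4 : M ≤ multiplicity (p : ℤ) (s - 1) + multiplicity (p : ℤ) (h : ℤ) := by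
    exact_mod_cast h3
  rw [pow_dvd_iff_le_emultiplicity, h2.emultiplicity_eq_multiplicity]
  exact_mod_cast (by omega : M - multiplicity (p : ℤ) (s - 1) ≤ multiplicity (p : ℤ) (h : ℤ))

theorem pow_ne_one' {a : ℤ} (ha : 2 ≤ |a|) {t : ℕ} (ht : 0 < t) : a ^ t ≠ 1 := by
  intro h
  have h1 : |a| ^ t = 1 := by rw [← abs_pow, h, abs_one]
  have h2 : (1 : ℤ) < |a| ^ t := one_lt_pow₀ (by linarith) ht.ne'
  omega

theorem prime_case {p : ℕ} (hp : p.Prime) {a : ℤ} (ha : 2 ≤ |a|) (hpa : ¬ (p : ℤ) ∣ a) :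
    ∃ k0 : ℕ, ∀ h : ℕ, 0 < h → ∀ M : ℕ, ((p : ℤ) ^ M ∣ a ^ h - 1) → (p : ℤ) ^ (M - k0) ∣ (h : ℤ) := by
  have hpi : Prime (p : ℤ) := Nat.prime_iff_prime_int.mp hp
  -- a multiple of the exponent
  have key : ∃ t : ℕ, 0 < t ∧ ∀ h : ℕ, emultiplicity (p : ℤ) ((a ^ t) ^ h - 1) =
      emultiplicity (p : ℤ) (a ^ t - 1) + emultiplicity (p : ℤ) (h : ℤ) := by
    rcases hp.eq_two_or_odd' with h2 | hodd
    · subst h2
      refine ⟨2, by norm_num, fun h => ?_⟩
      have hao : Odd a := by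
        rw [← Int.not_even_iff_odd, even_iff_two_dvd]
        exact_mod_cast hpa
      have h8 := Int.eight_dvd_sq_sub_one_of_odd hao
      have h4 : (4 : ℤ) ∣ a ^ 2 - 1 := dvd_trans (by norm_num) h8
      have hx : ¬ (2 : ℤ) ∣ a ^ 2 := by
        intro h
        have := Int.prime_two.dvd_of_dvd_pow h
        exact hpa (by exact_mod_cast this)
      have := Int.two_pow_sub_pow' (x := a ^ 2) (y := 1) h h4 hx
      rw [one_pow] at this
      exact_mod_cast this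
    · refine ⟨p - 1, Nat.sub_pos_of_lt hp.one_lt, fun h => ?_⟩
      haveI := Fact.mk hp
      have hcop : IsCoprime a (p : ℤ) := by
        rw [isCoprime_comm]
        exact (Prime.coprime_iff_not_dvd hpi).mpr hpa
      have h1 : a ^ (p - 1) ≡ 1 [ZMOD p] := Int.ModEq.pow_card_sub_one_eq_one hp hcop
      have h2 : (p : ℤ) ∣ a ^ (p - 1) - 1 := by
        have := h1.symm.dvd
        exact this
      have hx : ¬ (p : ℤ) ∣ a ^ (p - 1) := fun h => hpa (hpi.dvd_of_dvd_pow h)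
      have := Int.emultiplicity_pow_sub_pow hp hodd (x := a ^ (p - 1)) (y := 1) h2 hx h
      rw [one_pow] at this
      rw [this]
      congr 1
      exact (Int.natCast_emultiplicity p h).symm
  obtain ⟨t, ht, H⟩ := key
  obtain ⟨k0, hk0⟩ := core_case hp (pow_ne_one' ha ht) H
  refine ⟨k0, fun h hh M hM => hk0 h hh M ?_⟩
  refine hM.trans ?_
  rw [← pow_mul, mul_comm, pow_mul]
  have := sub_one_dvd_pow_sub_one (a ^ h) t
  exact this

end Pool.Agent.R332.EX
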