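import Pool.Agent.R332.EX.Main

/-! The terms of exponential sequences follow the law of large numbers: the main count. -/

set_option autoImplicit false

namespace Pool.Agent.R332.EX

open Finset Polynomial Pool.Agent.H319R2.M Pool.Agent.Y927.GP

theorem unb_mono {g : GM} {μ η : ℝ} (hη : 0 ≤ η) {N k0 : ℕ} (hk : k0 ≤ N) {x : ℤ}
    (h : Unb g μ η N x) : Unb g μ (η / 2) (N + k0) x := by
  obtain ⟨j, hj, h1⟩ := h
  refine ⟨j, by omega, lt_of_le_of_lt ?_ h1⟩
  have h2 : (k0 : ℝ) ≤ N := by exact_mod_cast hk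
  have h3 := mul_nonneg hη (sub_nonneg.mpr h2)
  push_cast
  nlinarith

/-- For all but few `n` of an interval with `b a ^ (f n) + c` in `S_C` the trajectory of this number
follows the law. -/
theorem law {g : GM} {b' : ℤ → ℤ} {e : ℤ → ℕ} {C : Finset (ℤ × ℕ)} {ρ : ℤ × ℕ → ℝ}
    (hf : g.Fac b' e) (hC : g.Cls e C ρ) {f : ℤ[X]} (hdeg : 1 ≤ f.natDegree) {a : ℤ} (ha : 2 ≤ |a|)
    (hac : IsCoprime a (g.d : ℤ)) {ε : ℝ} (hε : 0 < ε) :
    ∃ δ K : ℝ, 0 < δ ∧ δ < 1 ∧ 0 < K ∧ ∀ b c : ℤ, IsCoprime b (g.d : ℤ) →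
      ∀ (X : ℤ) (Y : ℝ), 1 ≤ Y → ∀ A : Finset ℤ, A ⊆ Ioc X (X + ⌊Y⌋₊) →
        (∀ n ∈ A, 0 ≤ f.eval n ∧ U a b c f n ∈ g.SC C ∧
          ¬ Typ g (mu g C ρ) ε Y (U a b c f n)) → (A.card : ℝ) ≤ K * Y ^ (1 - δ) := by
  classical
  obtain ⟨k0, hk0⟩ := adic g.two_le ha hac
  set μ := mu g C ρ with hμ
  have hd2 := g.two_le
  have hd1 : (1 : ℝ) < g.d := by have := g.dr; linarith
  have hd0 : (0 : ℝ) < g.d := by linarith
  have hL : 0 < Real.log g.d := Real.log_pos hd1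
  set κ : ℝ := max 0 (-μ / Real.log g.d) with hκdef
  have hκ0 : 0 ≤ κ := le_max_left _ _
  have hκ : -μ ≤ κ * Real.log g.d := by
    have h1 : -μ / Real.log g.d ≤ κ := le_max_right _ _
    rwa [div_le_iff₀ hL] at h1
  set D : ℝ := κ + 1 with hD
  have hD1 : 1 ≤ D := by linarith
  have hDp : 0 < D := by linarith
  set w : ℤ[X] := f.derivative with hw
  have hw0 : w ≠ 0 := by
    intro h
    have := Polynomial.derivative_eq_zero.1 h
    omega
  obtain ⟨m, hm⟩ : ∃ m, w.natDegree = m := ⟨_, rfl⟩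
  set aa : ℕ := w.leadingCoeff.natAbs with haa
  have ha1 : |w.leadingCoeff| < 2 ^ aa := by
    rw [Int.abs_eq_natAbs, ← haa]
    exact_mod_cast Nat.lt_two_pow_self
  set M : ℕ := (m + 1) * (m + 1) with hM
  have hM1 : 1 ≤ M := Nat.one_le_iff_ne_zero.2 (by positivity)
  have hM1r : (1 : ℝ) ≤ M := by exact_mod_cast hM1
  have hMp : (0 : ℝ) < M := by linarith
  set ε1 : ℝ := min ε ((D - κ) / 4) with hε1
  have hDκ : D - κ = 1 := by rw [hD]; ring
  have hε10 : 0 < ε1 := lt_min hε (by rw [hDκ]; norm_num)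
  have hε1ε : ε1 ≤ ε := min_le_left _ _
  have hε1β : ε1 ≤ (D - κ) / 4 := min_le_right _ _
  have hε1q : ε1 ≤ 1 / 4 := by rw [hDκ] at hε1β; exact hε1β
  obtain ⟨c₁, K2, hc, hK2, hclass⟩ := card_classes hf hC (η := ε1 / 4 * Real.log g.d / 2)
    (by positivity)
  set θ : ℝ := min 1 (c₁ / (4 * Real.log g.d)) with hθ
  have hθ0 : 0 < θ := lt_min one_pos (by positivity)
  have hθ1 : θ ≤ 1 := min_le_left _ _
  have hθc : 2 * θ * Real.log g.d ≤ c₁ / 2 := by
    have h1 : θ ≤ c₁ / (4 * Real.log g.d) := min_le_right _ _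
    have h2 := mul_le_mul_of_nonneg_right h1 hL.le
    have e1 : c₁ / (4 * Real.log g.d) * Real.log g.d = c₁ / 4 := by field_simp
    rw [e1] at h2
    linarith
  have hl2 : 0 < Real.log 2 := Real.log_pos (by norm_num)
  obtain ⟨δ1, K1, hδ10, hδ11, hK1, hconv1⟩ := conv g.d hd2 (c := θ * Real.log 2 / M) (by positivity)
  obtain ⟨δ2, K3, hδ20, hδ21, hK3, hconv2⟩ := conv g.d hd2 (c := c₁ / 2) (by positivity)
  obtain ⟨Y0, hY01, hlarge⟩ := large g.d hd2 hθ0 (show 0 < ε1 / 4 by positivity)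
    (show 0 < (D - κ) / 2 by rw [hDκ]; norm_num) g.R_nonneg ((aa : ℝ) + 1 + k0)
  set δ : ℝ := min δ1 δ2 with hδ
  have hδ0 : 0 < δ := lt_min hδ10 hδ20
  have hδa : δ ≤ δ1 := min_le_left _ _
  have hδb : δ ≤ δ2 := min_le_right _ _
  have hδ1 : δ < 1 := lt_of_le_of_lt hδa hδ11
  set P : ℝ := ((g.d.primeFactors.card : ℕ) : ℝ) with hP
  have hP0 : 0 ≤ P := Nat.cast_nonneg _
  have h1δ : 0 < 1 - δ := by linarith
  set C3 : ℝ := f.natDegree * (4 + 2 * (D / (1 - δ))) with hC3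
  have hC30 : 0 ≤ C3 := by positivity
  set K4 : ℝ := K2 * ((k0 + 1) * (g.d : ℝ) ^ k0) * (g.d + 1) * K3 with hK4
  have hK40 : 0 ≤ K4 := by positivity
  refine ⟨δ, P * (m * (2 ^ (aa + 2) * K1 + 1)) + K4 + C3 + Y0, hδ0, hδ1,
    by positivity, ?_⟩
  intro b c hb X Y hY A hA hbad
  have hb0 : b ≠ 0 := by
    rintro rfl
    rw [isCoprime_zero_left, Int.isUnit_iff] at hb
    omega
  have hYp : 0 < Y := by linarith
  have hY1δ : 1 ≤ Y ^ (1 - δ) := Real.one_le_rpow hY (by linarith)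
  obtain ⟨N, hN1, hN2, hNM⟩ := scale g.d hd2 Y hY
  have hN0 : (0 : ℝ) ≤ N := Nat.cast_nonneg _
  have hE0 : (0 : ℝ) ≤ P * (m * (2 ^ (aa + 2) * K1 + 1)) + K4 + C3 := by positivity
  rcases lt_or_ge Y Y0 with hsmall | hbig
  · have h1 : (A.card : ℝ) ≤ Y := by
      have h2 := Finset.card_le_card hA
      rw [Int.card_Ioc] at h2
      have h3 : (X + ⌊Y⌋₊ - X).toNat = ⌊Y⌋₊ := by omega
      rw [h3] at h2
      have h4 : (A.card : ℝ) ≤ ⌊Y⌋₊ := by exact_mod_cast h2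
      exact h4.trans (Nat.floor_le hYp.le)
    calc (A.card : ℝ) ≤ Y := h1
      _ ≤ Y0 * 1 := by linarith
      _ ≤ Y0 * Y ^ (1 - δ) := by gcongr
      _ ≤ _ := by
          apply mul_le_mul_of_nonneg_right _ (by positivity)
          linarith
  obtain ⟨hNa, hYε, hRN⟩ := hlarge Y hbig N hN1 hN2
  have ha0 : (0 : ℝ) ≤ aa := Nat.cast_nonneg _
  have hk0r : (0 : ℝ) ≤ k0 := Nat.cast_nonneg _
  have hθN : θ * N ≤ N := by
    calc θ * N ≤ 1 * N := mul_le_mul_of_nonneg_right hθ1 hN0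
      _ = N := one_mul _
  have hk0N : k0 ≤ N := by
    have : (k0 : ℝ) ≤ N := by linarith
    exact_mod_cast this
  set j0 : ℕ := ⌊θ * N⌋₊ with hj0
  have hj0a : aa + 1 ≤ j0 := by
    rw [hj0]; apply Nat.le_floor; push_cast; linarith
  have hj0u : (j0 : ℝ) ≤ θ * N := Nat.floor_le (by positivity)
  have hj0l : θ * N < j0 + 1 := Nat.lt_floor_add_one _
  have hj0N : j0 ≤ N := by
    have h1 : (j0 : ℝ) ≤ N := by linarith
    exact_mod_cast h1
  set l : ℕ := (j0 - aa) / M with hl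
  set Q : ℕ := ⌊Y⌋₊ with hQ
  have hQY : (Q : ℝ) ≤ Y := Nat.floor_le hYp.le
  -- the exceptional sets
  set G : ℤ → Prop := fun n => ∀ p : ℕ, p.Prime → p ∣ g.d → ¬ ((p : ℤ) ^ j0) ∣ w.eval n with hG
  set A0 := A.filter (fun n : ℤ => G n ∧ Y ^ (D - ε1) ≤ |((U a b c f n : ℤ) : ℝ)|) with hA0
  set V := A0.image (fun n : ℤ => U a b c f n % (g.d : ℤ) ^ (N + k0)) with hV
  set V' := A0.image (fun n : ℤ => f.eval n % (g.d : ℤ) ^ N) with hV'
  set E1 := g.d.primeFactors.biUnion (fun p : ℕ => (Ioc X (X + Q)).filter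
    (fun n : ℤ => ((p : ℤ) ^ j0) ∣ w.eval n)) with hE1
  set E3 := A.filter (fun n : ℤ => |((U a b c f n : ℤ) : ℝ)| < Y ^ (D - ε1)) with hE3
  have hsub : A ⊆ E1 ∪ (A0 ∪ E3) := by
    intro n hn
    rw [mem_union, mem_union]
    by_cases h3 : |((U a b c f n : ℤ) : ℝ)| < Y ^ (D - ε1)
    · right; right; rw [hE3, mem_filter]; exact ⟨hn, h3⟩
    by_cases h1 : G n
    · right; left
      rw [hA0, mem_filter]
      exact ⟨hn, h1, not_lt.1 h3⟩
    · left
      rw [hG] at h1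
      push Not at h1
      obtain ⟨p, hp, hpd, hdv⟩ := h1
      rw [hE1, mem_biUnion]
      refine ⟨p, ?_, ?_⟩
      · rw [Nat.mem_primeFactors]; exact ⟨hp, hpd, by omega⟩
      · rw [mem_filter]; exact ⟨hA hn, hdv⟩
  have hcard : A.card ≤ E1.card + (A0.card + E3.card) :=
    (Finset.card_le_card hsub).trans ((Finset.card_union_le _ _).trans
      (Nat.add_le_add_left (Finset.card_union_le _ _) _))
  -- `E1`
  have hB1 : (E1.card : ℝ) ≤ P * (m * (2 ^ (aa + 2) * K1 + 1)) * Y ^ (1 - δ) := by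
    have h1 : E1.card ≤ ∑ p ∈ g.d.primeFactors, m * (Q / 2 ^ l + 1) := by
      refine Finset.card_biUnion_le.trans ?_
      apply Finset.sum_le_sum
      intro p hp
      rw [Nat.mem_primeFactors] at hp
      apply count1 hw0 hm (L := 2 ^ l) Nat.one_le_two_pow
      have h1 : l * M ≤ j0 - aa := Nat.div_mul_le_self _ _
      calc (((2 ^ l : ℕ) : ℤ)) ^ ((m + 1) * (m + 1)) * |w.leadingCoeff|
          < (((2 ^ l : ℕ) : ℤ)) ^ ((m + 1) * (m + 1)) * 2 ^ aa :=
            mul_lt_mul_of_pos_left ha1 (by positivity)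
        _ = (2 : ℤ) ^ (l * M + aa) := by
            push_cast
            rw [← pow_mul, ← pow_add]
        _ ≤ 2 ^ j0 := pow_le_pow_right₀ (by norm_num) (by omega)
        _ ≤ (p : ℤ) ^ j0 := by
            apply pow_le_pow_left₀ (by norm_num)
            exact_mod_cast hp.1.two_le
    rw [Finset.sum_const, smul_eq_mul] at h1
    have h2 : (E1.card : ℝ) ≤ P * (m * (((Q / 2 ^ l : ℕ) : ℝ) + 1)) := by
      rw [hP]; exact_mod_cast h1
    have h3 : ((Q / 2 ^ l : ℕ) : ℝ) ≤ 2 ^ (aa + 2) * K1 * Y ^ (1 - δ) := by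
      have h4 : ((Q / 2 ^ l : ℕ) : ℝ) ≤ (Q : ℝ) / 2 ^ l := by
        have := Nat.cast_div_le (α := ℝ) (m := Q) (n := 2 ^ l)
        push_cast at this
        exact this
      have h5 : (Q : ℝ) / 2 ^ l ≤ Y * Real.exp (-(l * Real.log 2)) := by
        rw [Real.exp_neg, Real.exp_nat_mul, Real.exp_log (by norm_num), div_eq_mul_inv]
        gcongr
      have h9 : j0 - aa < (l + 1) * M := by
        have := Nat.lt_div_mul_add (a := j0 - aa) (b := M) (by omega)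
        rw [← hl] at this
        linarith [this, Nat.add_mul l 1 M]
      have h10 : (j0 : ℝ) - aa < ((l : ℝ) + 1) * M := by
        have : ((j0 - aa : ℕ) : ℝ) < (((l + 1) * M : ℕ) : ℝ) := by exact_mod_cast h9
        rw [Nat.cast_sub (by omega)] at this
        push_cast at this
        exact this
      have h11 : θ * N - 1 - aa < ((l : ℝ) + 1) * M := by linarith
      have h12 : (θ * N - 1 - aa) / M < (l : ℝ) + 1 := by rwa [div_lt_iff₀ hMp]
      have h13 : (θ * N - 1 - aa) / M = θ / M * N - (1 + aa) / M := by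
        field_simp; ring
      have h14 : (1 + (aa : ℝ)) / M ≤ 1 + aa := div_le_self (by linarith) hM1r
      have h15 : θ / M * N - (aa + 2) ≤ l := by linarith
      have h16 : Real.exp (-(l * Real.log 2)) ≤
          2 ^ (aa + 2) * Real.exp (-(θ * Real.log 2 / M * N)) := by
        have e1 : (2 : ℝ) ^ (aa + 2) = Real.exp (((aa : ℝ) + 2) * Real.log 2) := by
          have : ((aa : ℝ) + 2) = ((aa + 2 : ℕ) : ℝ) := by push_cast; ring
          rw [this, Real.exp_nat_mul, Real.exp_log (by norm_num)]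
        rw [e1, ← Real.exp_add]
        apply Real.exp_le_exp.2
        have h17 := mul_le_mul_of_nonneg_right h15 hl2.le
        have e2 : (θ / M * N - (aa + 2)) * Real.log 2 =
            θ * Real.log 2 / M * N - (aa + 2) * Real.log 2 := by
          ring
        rw [e2] at h17
        linarith
      have h18 := hconv1 N Y hY hN2
      have h19 : Real.exp (-(θ * Real.log 2 / M * N)) * Y ≤
          ((N : ℝ) + 1) * Real.exp (-(θ * Real.log 2 / M * N)) * Y := by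
        apply mul_le_mul_of_nonneg_right _ hYp.le
        exact le_mul_of_one_le_left (Real.exp_pos _).le (by linarith)
      calc ((Q / 2 ^ l : ℕ) : ℝ) ≤ (Q : ℝ) / 2 ^ l := h4
        _ ≤ Y * Real.exp (-(l * Real.log 2)) := h5
        _ ≤ Y * (2 ^ (aa + 2) * Real.exp (-(θ * Real.log 2 / M * N))) :=
            mul_le_mul_of_nonneg_left h16 hYp.le
        _ = 2 ^ (aa + 2) * (Real.exp (-(θ * Real.log 2 / M * N)) * Y) := by ring
        _ ≤ 2 ^ (aa + 2) * (K1 * Y ^ (1 - δ1)) :=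
            mul_le_mul_of_nonneg_left (h19.trans h18) (by positivity)
        _ ≤ 2 ^ (aa + 2) * (K1 * Y ^ (1 - δ)) := by
            gcongr
        _ = 2 ^ (aa + 2) * K1 * Y ^ (1 - δ) := by ring
    calc (E1.card : ℝ) ≤ P * (m * (((Q / 2 ^ l : ℕ) : ℝ) + 1)) := h2
      _ ≤ P * (m * (2 ^ (aa + 2) * K1 * Y ^ (1 - δ) + Y ^ (1 - δ))) := by gcongr
      _ = P * (m * (2 ^ (aa + 2) * K1 + 1)) * Y ^ (1 - δ) := by ring
  -- `A0`
  have hB2 : (A0.card : ℝ) ≤ K4 * Y ^ (1 - δ) := by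
    have hVc : (V.card : ℝ) ≤ K2 * ((((N + k0 : ℕ) : ℝ) + 1) *
        ((g.d : ℝ) ^ (N + k0) * Real.exp (-(c₁ * ((N + k0 : ℕ) : ℝ))))) := by
      apply hclass (N + k0) V
      intro v hv
      rw [hV, mem_image] at hv
      obtain ⟨n, hn, rfl⟩ := hv
      rw [hA0, mem_filter] at hn
      obtain ⟨hnA, -, hbign⟩ := hn
      obtain ⟨-, hS, hT⟩ := hbad n hnA
      refine ⟨U a b c f n, hS, ?_, rfl⟩
      by_contra hU
      refine hT (typ_of g hκ0 hκ hε10 hε1ε hε1β hY hN1 hN2 hYε hRN hbign fun hU' => ?_)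
      exact hU (unb_mono (by positivity) hk0N hU')
    have hVV : V'.card ≤ V.card := by
      rw [hV, hV']
      apply card_factor
      intro x hx y hy hxy
      rw [hA0, mem_filter] at hx hy
      exact spread hd2 hac hk0 hb (hbad x hx.1).1 (hbad y hy.1).1 hxy
    have h1 : A0.card ≤ V'.card * (g.d ^ j0 * (g.d ^ (j0 + 1) + 1)) := by
      refine le_trans (Finset.card_le_card ?_) (count2 (f := f) hd2 hj0N hNM X V')
      intro n hn
      have hnV : f.eval n % (g.d : ℤ) ^ N ∈ V' := by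
        rw [hV']; exact mem_image_of_mem _ hn
      rw [hA0, mem_filter] at hn
      rw [mem_filter]
      exact ⟨hA hn.1, hn.2.1, hnV⟩
    have h1' := h1.trans (Nat.mul_le_mul_right _ hVV)
    have h2 : (A0.card : ℝ) ≤ V.card * ((g.d : ℝ) ^ j0 * ((g.d : ℝ) ^ (j0 + 1) + 1)) := by
      exact_mod_cast h1'
    have h4 : (g.d : ℝ) ^ j0 * ((g.d : ℝ) ^ (j0 + 1) + 1) ≤ (g.d + 1) * Real.exp (c₁ / 2 * N) := by
      have h5 : (1 : ℝ) ≤ (g.d : ℝ) ^ j0 := one_le_pow₀ hd1.le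
      have h6 : (g.d : ℝ) ^ j0 * ((g.d : ℝ) ^ (j0 + 1) + 1) ≤ (g.d + 1) * ((g.d : ℝ) ^ j0) ^ 2 := by
        rw [pow_succ (g.d : ℝ) j0]
        nlinarith
      have h7 : ((g.d : ℝ) ^ j0) ^ 2 = Real.exp (j0 * (2 * Real.log g.d)) := by
        rw [← pow_mul, mul_comm (j0 : ℝ), mul_comm (2 : ℝ), mul_assoc, mul_comm (Real.log _)]
        have : (2 : ℝ) * j0 = ((j0 * 2 : ℕ) : ℝ) := by push_cast; ring
        rw [this, Real.exp_nat_mul, Real.exp_log hd0]
      refine h6.trans ?_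
      rw [h7]
      apply mul_le_mul_of_nonneg_left _ (by positivity)
      apply Real.exp_le_exp.2
      have h8 : (j0 : ℝ) * (2 * Real.log g.d) ≤ θ * N * (2 * Real.log g.d) :=
        mul_le_mul_of_nonneg_right hj0u (by positivity)
      have h9 : θ * N * (2 * Real.log g.d) = 2 * θ * Real.log g.d * N := by ring
      rw [h9] at h8
      exact h8.trans (mul_le_mul_of_nonneg_right hθc hN0)
    have h10 : (((N + k0 : ℕ) : ℝ) + 1) *
        ((g.d : ℝ) ^ (N + k0) * Real.exp (-(c₁ * ((N + k0 : ℕ) : ℝ)))) ≤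
        ((k0 + 1) * (g.d : ℝ) ^ k0) * ((N + 1) * ((g.d : ℝ) ^ N * Real.exp (-(c₁ * N)))) := by
      have e1 : Real.exp (-(c₁ * ((N + k0 : ℕ) : ℝ))) ≤ Real.exp (-(c₁ * N)) := by
        apply Real.exp_le_exp.2
        push_cast
        have := mul_nonneg hc.le hk0r
        nlinarith
      have e2 : (((N + k0 : ℕ) : ℝ) + 1) ≤ (k0 + 1) * (N + 1) := by
        push_cast
        have := mul_nonneg hk0r hN0
        nlinarith
      calc (((N + k0 : ℕ) : ℝ) + 1) *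
          ((g.d : ℝ) ^ (N + k0) * Real.exp (-(c₁ * ((N + k0 : ℕ) : ℝ)))) ≤
          ((k0 + 1) * (N + 1)) * ((g.d : ℝ) ^ (N + k0) * Real.exp (-(c₁ * N))) := by gcongr
        _ = _ := by rw [pow_add]; ring
    have h18 := hconv2 N Y hY hN2
    calc (A0.card : ℝ) ≤ V.card * ((g.d : ℝ) ^ j0 * ((g.d : ℝ) ^ (j0 + 1) + 1)) := h2
      _ ≤ (K2 * (((k0 + 1) * (g.d : ℝ) ^ k0) *
          ((N + 1) * ((g.d : ℝ) ^ N * Real.exp (-(c₁ * N)))))) *
          ((g.d + 1) * Real.exp (c₁ / 2 * N)) := by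
          apply mul_le_mul (hVc.trans (mul_le_mul_of_nonneg_left h10 hK2.le)) h4
            (by positivity) (by positivity)
      _ = K2 * ((k0 + 1) * (g.d : ℝ) ^ k0) * (g.d + 1) *
          (((N : ℝ) + 1) * (Real.exp (-(c₁ * N)) * Real.exp (c₁ / 2 * N)) * (g.d : ℝ) ^ N) := by
          ring
      _ = K2 * ((k0 + 1) * (g.d : ℝ) ^ k0) * (g.d + 1) *
          (((N : ℝ) + 1) * Real.exp (-(c₁ / 2 * N)) * (g.d : ℝ) ^ N) := by
          rw [← Real.exp_add]
          have : -(c₁ * N) + c₁ / 2 * N = -(c₁ / 2 * N) := by ring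
          rw [this]
      _ ≤ K2 * ((k0 + 1) * (g.d : ℝ) ^ k0) * (g.d + 1) *
          (((N : ℝ) + 1) * Real.exp (-(c₁ / 2 * N)) * Y) := by gcongr
      _ ≤ K2 * ((k0 + 1) * (g.d : ℝ) ^ k0) * (g.d + 1) * (K3 * Y ^ (1 - δ2)) := by gcongr
      _ ≤ K2 * ((k0 + 1) * (g.d : ℝ) ^ k0) * (g.d + 1) * (K3 * Y ^ (1 - δ)) := by
          gcongr
      _ = K4 * Y ^ (1 - δ) := by rw [hK4]; ring
  -- `E3`
  have hB3 : (E3.card : ℝ) ≤ C3 * Y ^ (1 - δ) := by
    have h0 : 0 ≤ D - ε1 := by linarith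
    have h1 := few_exp hdeg ha hb0 (c := c) (Z := Y ^ (D - ε1)) (Real.one_le_rpow hY h0) (A := E3) (by
      intro n hn
      rw [hE3, mem_filter] at hn
      exact ⟨(hbad n hn.1).1, hn.2⟩)
    refine h1.trans ?_
    rw [Real.log_rpow hYp]
    have h2 : Real.log Y ≤ Y ^ (1 - δ) / (1 - δ) := Real.log_le_rpow_div hYp.le h1δ
    have hlogY : 0 ≤ Real.log Y := Real.log_nonneg hY
    have h3 : (D - ε1) * Real.log Y ≤ D / (1 - δ) * Y ^ (1 - δ) := by
      calc (D - ε1) * Real.log Y ≤ D * (Y ^ (1 - δ) / (1 - δ)) := by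
            apply mul_le_mul (by linarith) h2 hlogY hDp.le
        _ = D / (1 - δ) * Y ^ (1 - δ) := by ring
    rw [hC3]
    calc (f.natDegree : ℝ) * (4 + 2 * ((D - ε1) * Real.log Y)) ≤
        f.natDegree * (4 * Y ^ (1 - δ) + 2 * (D / (1 - δ) * Y ^ (1 - δ))) := by
          apply mul_le_mul_of_nonneg_left _ (Nat.cast_nonneg _)
          linarith
      _ = f.natDegree * (4 + 2 * (D / (1 - δ))) * Y ^ (1 - δ) := by ring
  have hcard' : (A.card : ℝ) ≤ E1.card + (A0.card + E3.card) := by exact_mod_cast hcard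
  calc (A.card : ℝ) ≤ E1.card + (A0.card + E3.card) := hcard'
    _ ≤ P * (m * (2 ^ (aa + 2) * K1 + 1)) * Y ^ (1 - δ) + (K4 * Y ^ (1 - δ) +
        C3 * Y ^ (1 - δ)) := by gcongr
    _ = (P * (m * (2 ^ (aa + 2) * K1 + 1)) + K4 + C3) * Y ^ (1 - δ) := by ring
    _ ≤ (P * (m * (2 ^ (aa + 2) * K1 + 1)) + K4 + C3 + Y0) * Y ^ (1 - δ) := by
        apply mul_le_mul_of_nonneg_right _ (by positivity)
        linarith

end Pool.Agent.R332.EX
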