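import Pool.Agent.R332.EX.Law

/-! Small terms of the trajectories of the terms of exponential sequences; Wiggin's maps. -/

set_option autoImplicit false

namespace Pool.Agent.R332.EX

open Finset Polynomial Pool.Agent.H319R2.M Pool.Agent.Y927.GP

theorem low_exp {g : GM} {b' : ℤ → ℤ} {e : ℤ → ℕ} {C : Finset (ℤ × ℕ)} {ρ : ℤ × ℕ → ℝ}
    (hf : g.Fac b' e) (hC : g.Cls e C ρ) {f : ℤ[X]} (hdeg : 1 ≤ f.natDegree) {a : ℤ} (ha : 2 ≤ |a|)
    (hac : IsCoprime a (g.d : ℤ)) {κ : ℝ} (hκ0 : 0 < κ) (hκ : mu g C ρ = -κ * Real.log g.d) {ε : ℝ}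
    (hε : 0 < ε) :
    ∃ δ K : ℝ, 0 < δ ∧ δ < 1 ∧ 0 < K ∧ ∀ b c : ℤ, IsCoprime b (g.d : ℤ) →
      ∀ (X : ℤ) (Y : ℝ), 1 ≤ Y → ∀ A : Finset ℤ, A ⊆ Ioc X (X + ⌊Y⌋₊) →
        (∀ n ∈ A, 0 ≤ f.eval n ∧ U a b c f n ∈ g.SC C ∧ ∀ N : ℕ,
          Y ^ (-κ + ε) * |((U a b c f n : ℤ) : ℝ)| < |((g.T^[N] (U a b c f n) : ℤ) : ℝ)|) →
            (A.card : ℝ) ≤ K * Y ^ (1 - δ) := by
  classical
  have hd2 := g.two_le
  have hd1 : (1 : ℝ) < g.d := by have := g.dr; linarith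
  have hd0 : (0 : ℝ) < g.d := by linarith
  obtain ⟨δ, K, hδ0, hδ1, hK, hmain⟩ := law hf hC hdeg ha hac (ε := ε / 2) (by positivity)
  set Y1 : ℝ := (g.d : ℝ) ^ (2 * κ / ε) with hY1
  have hY10 : 0 < Y1 := by positivity
  refine ⟨δ, K + Y1, hδ0, hδ1, by positivity, ?_⟩
  intro b c hb X Y hY A hA hE
  have hYp : 0 < Y := by linarith
  have hY1' : 1 ≤ Y ^ (1 - δ) := Real.one_le_rpow hY (by linarith)
  rcases lt_or_ge Y Y1 with hsmall | hbig
  · have h1 : (A.card : ℝ) ≤ Y := by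
      have h2 := Finset.card_le_card hA
      rw [Int.card_Ioc] at h2
      have h3 : (X + ⌊Y⌋₊ - X).toNat = ⌊Y⌋₊ := by omega
      rw [h3] at h2
      have h4 : (A.card : ℝ) ≤ ⌊Y⌋₊ := by exact_mod_cast h2
      exact h4.trans (Nat.floor_le hYp.le)
    calc (A.card : ℝ) ≤ Y1 * 1 := by linarith
      _ ≤ Y1 * Y ^ (1 - δ) := by gcongr
      _ ≤ _ := by
          apply mul_le_mul_of_nonneg_right _ (by positivity)
          linarith
  have h2 : (A.card : ℝ) ≤ K * Y ^ (1 - δ) := by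
    apply hmain b c hb X Y hY A hA
    intro n hn
    obtain ⟨hf0, hS, hEy⟩ := hE n hn
    refine ⟨hf0, hS, fun htyp => ?_⟩
    set y := U a b c f n with hy
    obtain ⟨N, hN1, hN2, -⟩ := scale g.d hd2 Y hY
    have h3 := (htyp N hN1).2
    have h4 : |((g.T^[N] y : ℤ) : ℝ)| ≤ Y ^ (-κ + ε) * |(y : ℝ)| := by
      refine h3.trans ?_
      rw [exp_pow hd2 hκ]
      have h6 : Y / g.d ≤ (g.d : ℝ) ^ N := by
        rw [div_le_iff₀ hd0]
        rw [pow_succ] at hN2; exact hN2.le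
      have h7 : ((g.d : ℝ) ^ N) ^ (-κ) ≤ (g.d : ℝ) ^ κ * Y ^ (-κ) := by
        calc ((g.d : ℝ) ^ N) ^ (-κ) ≤ (Y / g.d) ^ (-κ) :=
              Real.rpow_le_rpow_of_nonpos (by positivity) h6 (by linarith)
          _ = (g.d : ℝ) ^ κ * Y ^ (-κ) := by
              rw [Real.div_rpow hYp.le hd0.le, Real.rpow_neg hd0.le κ, div_inv_eq_mul, mul_comm]
      have h8 : (g.d : ℝ) ^ κ ≤ Y ^ (ε / 2) := by
        calc (g.d : ℝ) ^ κ = Y1 ^ (ε / 2) := by
              rw [hY1, ← Real.rpow_mul hd0.le]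
              congr 1
              field_simp
          _ ≤ Y ^ (ε / 2) := Real.rpow_le_rpow hY10.le hbig (by positivity)
      have hya : 0 ≤ |(y : ℝ)| := abs_nonneg _
      calc Y ^ (ε / 2) * ((g.d : ℝ) ^ N) ^ (-κ) * |(y : ℝ)| ≤
            Y ^ (ε / 2) * ((g.d : ℝ) ^ κ * Y ^ (-κ)) * |(y : ℝ)| := by gcongr
        _ ≤ Y ^ (ε / 2) * (Y ^ (ε / 2) * Y ^ (-κ)) * |(y : ℝ)| := by gcongr
        _ = Y ^ (-κ + ε) * |(y : ℝ)| := by
            rw [← Real.rpow_add hYp, ← Real.rpow_add hYp]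
            congr 2
            ring
    have h5 := hEy N
    linarith
  calc (A.card : ℝ) ≤ K * Y ^ (1 - δ) := h2
    _ ≤ (K + Y1) * Y ^ (1 - δ) := by
        apply mul_le_mul_of_nonneg_right _ (by positivity)
        linarith

/-- Wiggin's map `F_D`. -/
def F (D x : ℕ) : ℕ :=
  if x % D = 0 then x / D
  else if x % D = D - 1 then (D + 1) * x + 1
  else (D + 1) * x - x % D

/-- the constants -/
def rw' (D : ℕ) (j : ℤ) : ℤ := if j = (D : ℤ) - 1 then -1 else j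

theorem rw_adm (D : ℕ) : ∀ j : ℤ, 1 ≤ j → j < D → (D : ℤ) ∣ ((D + 1 : ℕ) : ℤ) * j - rw' D j := by
  intro j _ _
  unfold rw'
  split_ifs with h
  · refine ⟨(D : ℤ), ?_⟩
    rw [h]
    push_cast
    ring
  · refine ⟨j, ?_⟩
    push_cast
    ring

theorem T_F {D : ℕ} (hD : 2 ≤ D) (x : ℕ) (hx : 0 < x) :
    ∃ k : ℕ, (((F D)^[k] x : ℕ) : ℤ) = Mo.T D (D + 1) (rw' D) x ∧ 0 < (F D)^[k] x := by
  have hD0 : 0 < D := by omega
  have hmod : ((x : ℤ) % (D : ℤ)) = ((x % D : ℕ) : ℤ) := by push_cast; rfl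
  have hlt : x % D < D := Nat.mod_lt _ hD0
  have hdm := Nat.div_add_mod x D
  by_cases h0 : x % D = 0
  · refine ⟨1, ?_, ?_⟩
    · rw [Function.iterate_one]
      unfold F Mo.T
      rw [if_pos h0, if_pos (by rw [hmod, h0]; rfl)]
      push_cast
      rfl
    · rw [Function.iterate_one]
      unfold F
      rw [if_pos h0]
      have : D ≤ x := Nat.le_of_dvd hx (Nat.dvd_of_mod_eq_zero h0)
      exact Nat.div_pos this hD0
  · -- two steps
    have key : ∃ q : ℕ, 0 < q ∧ F D x = D * q ∧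
        (((D + 1 : ℕ) : ℤ) * x - rw' D ((x : ℤ) % D)) = (D : ℤ) * q := by
      unfold F rw'
      rw [if_neg h0, hmod]
      by_cases h1 : x % D = D - 1
      · rw [if_pos h1, if_pos (by rw [h1]; omega)]
        refine ⟨x + x / D + 1, Nat.succ_pos _, ?_, ?_⟩
        · have h2 : x + 1 = D * (x / D) + D := by omega
          calc (D + 1) * x + 1 = D * x + (x + 1) := by ring
            _ = D * x + (D * (x / D) + D) := by rw [h2]
            _ = D * (x + x / D + 1) := by ring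
        · have h2 : (x : ℤ) + 1 = D * ((x / D : ℕ) : ℤ) + D := by
            have : x + 1 = D * (x / D) + D := by omega
            exact_mod_cast this
          push_cast at h2 ⊢
          linear_combination h2
      · rw [if_neg h1, if_neg (by omega)]
        refine ⟨x + x / D, Nat.add_pos_left hx _, ?_, ?_⟩
        · have h2 : (D + 1) * x = D * (x + x / D) + x % D := by
            calc (D + 1) * x = D * x + x := by ring
              _ = D * x + (D * (x / D) + x % D) := by rw [hdm]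
              _ = D * (x + x / D) + x % D := by ring
          omega
        · have h2 : (D : ℤ) * ((x / D : ℕ) : ℤ) + ((x % D : ℕ) : ℤ) = x := by exact_mod_cast hdm
          push_cast at h2 ⊢
          linear_combination (-1 : ℤ) * h2
    obtain ⟨q, hq0, hq1, hq2⟩ := key
    have hF2 : F D (F D x) = q := by
      rw [hq1]
      unfold F
      rw [if_pos (Nat.mul_mod_right D q), Nat.mul_div_cancel_left _ hD0]
    refine ⟨2, ?_, ?_⟩
    · change ((F D (F D x) : ℕ) : ℤ) = _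
      rw [hF2]
      unfold Mo.T
      rw [if_neg (by rw [hmod]; exact_mod_cast h0), hq2,
        Int.mul_ediv_cancel_left _ (by exact_mod_cast hD0.ne')]
    · change 0 < F D (F D x)
      rw [hF2]
      exact hq0

theorem TN_F {D : ℕ} (hD : 2 ≤ D) (N : ℕ) (x : ℕ) (hx : 0 < x) :
    ∃ k : ℕ, (((F D)^[k] x : ℕ) : ℤ) = (Mo.T D (D + 1) (rw' D))^[N] x ∧ 0 < (F D)^[k] x := by
  induction N with
  | zero => exact ⟨0, rfl, hx⟩
  | succ N ih =>
    obtain ⟨k, h1, h2⟩ := ih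
    obtain ⟨k', h3, h4⟩ := T_F hD _ h2
    refine ⟨k' + k, ?_, ?_⟩
    · rw [Function.iterate_add_apply, Function.iterate_succ_apply', h3, h1]
    · rw [Function.iterate_add_apply]
      exact h4

/-- `κ_D = 1 - (D - 1) / D * log (D + 1) / log D` is positive. -/
theorem kap_pos {D : ℕ} (hD : 2 ≤ D) : 0 < Mo.kap D (D + 1) := by
  have hD2 : (2 : ℝ) ≤ D := by exact_mod_cast hD
  have hD0 : (0 : ℝ) < D := by linarith
  have hL : 0 < Real.log D := Real.log_pos (by linarith)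
  have h1 : ((D : ℝ) - 1) / D < Real.log D := by
    rcases Nat.lt_or_ge D 3 with h | h
    · have h2 : D = 2 := by omega
      subst h2
      have := Real.log_two_gt_d9
      norm_num
      linarith
    · have h3 : (3 : ℝ) ≤ D := by exact_mod_cast h
      have h4 : (1 : ℝ) < Real.log 3 := by
        rw [Real.lt_log_iff_exp_lt (by norm_num)]
        have := Real.exp_one_lt_d9
        linarith
      have h5 : Real.log 3 ≤ Real.log D := Real.log_le_log (by norm_num) h3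
      have h6 : ((D : ℝ) - 1) / D < 1 := by
        rw [div_lt_one hD0]
        linarith
      linarith
  have h2 : Real.log ((D : ℝ) + 1) ≤ Real.log D + 1 / D := by
    have h3 : ((D : ℝ) + 1) = D * (1 + 1 / D) := by field_simp
    rw [h3, Real.log_mul hD0.ne' (by positivity)]
    have h4 := Real.log_le_sub_one_of_pos (show (0 : ℝ) < 1 + 1 / D by positivity)
    linarith
  have h3 : ((D : ℝ) - 1) / D * Real.log ((D : ℝ) + 1) < Real.log D := by
    have h4 : ((D : ℝ) - 1) / D * Real.log ((D : ℝ) + 1) ≤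
        ((D : ℝ) - 1) / D * (Real.log D + 1 / D) :=
      mul_le_mul_of_nonneg_left h2 (div_nonneg (by linarith) hD0.le)
    have h5 : ((D : ℝ) - 1) / D * (Real.log D + 1 / D) =
        Real.log D - (Real.log D - ((D : ℝ) - 1) / D) / D := by
      field_simp
      ring
    have h6 : 0 < (Real.log D - ((D : ℝ) - 1) / D) / D := div_pos (by linarith) hD0
    linarith
  unfold Mo.kap
  push_cast
  have h4 : ((D : ℝ) - 1) / D * (Real.log ((D : ℝ) + 1) / Real.log D) < 1 := by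
    rw [← mul_div_assoc, div_lt_one hL]
    exact h3
  linarith

/-- Wiggin's maps along exponential sequences. -/
theorem wiggin {D : ℕ} (hD : 2 ≤ D) {f : ℤ[X]} (hdeg : 1 ≤ f.natDegree) {a : ℤ} (ha : 2 ≤ |a|)
    (hac : IsCoprime a (D : ℤ)) {ε : ℝ} (hε : 0 < ε) :
    ∃ δ K : ℝ, 0 < δ ∧ δ < 1 ∧ 0 < K ∧ ∀ b c : ℤ, IsCoprime b (D : ℤ) →
      ∀ (X : ℤ) (Y : ℝ), 1 ≤ Y → ∀ A : Finset ℤ, A ⊆ Ioc X (X + ⌊Y⌋₊) →
        (∀ n ∈ A, 0 ≤ f.eval n ∧ 0 < U a b c f n ∧ ∀ k : ℕ,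
          Y ^ (-Mo.kap D (D + 1) + ε) * ((U a b c f n : ℤ) : ℝ) <
            (((F D)^[k] (U a b c f n).toNat : ℕ) : ℝ)) → (A.card : ℝ) ≤ K * Y ^ (1 - δ) := by
  classical
  have hcop : Nat.Coprime (D + 1) D := by
    rw [Nat.coprime_self_add_left]
    exact Nat.coprime_one_left D
  have Dt := Mo.data (r := rw' D) hD hcop (rw_adm D)
  have hC := Mo.cls (m := D + 1) (r := rw' D) hD
  have hmu := Mo.mu_kap hD Dt
  obtain ⟨δ, K, hδ0, hδ1, hK, h⟩ := low_exp (Pool.Agent.H319R2.Leigh.gm_fac Dt)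
    (Pool.Agent.H319R2.Leigh.gm_cls Dt hC) hdeg ha hac (kap_pos hD) hmu hε
  refine ⟨δ, K, hδ0, hδ1, hK, fun b c hb X Y hY A hA hE => h b c hb X Y hY A hA fun n hn => ?_⟩
  obtain ⟨h1, h2, h3⟩ := hE n hn
  refine ⟨h1, Mo.mem_S hD _, fun N => ?_⟩
  have hTT : (Pool.Agent.H319R2.Leigh.gm Dt).T = Mo.T D (D + 1) (rw' D) := by
    rw [Pool.Agent.H319R2.Leigh.gm_T, Mo.T_eq]
  obtain ⟨k, hk1, hk2⟩ := TN_F hD N (U a b c f n).toNat (by omega)
  have h4 : (((U a b c f n).toNat : ℕ) : ℤ) = U a b c f n := Int.toNat_of_nonneg h2.le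
  rw [h4] at hk1
  have h5 : ((U a b c f n : ℤ) : ℝ) = |((U a b c f n : ℤ) : ℝ)| := by
    rw [abs_of_pos (by exact_mod_cast h2)]
  rw [hTT, ← hk1, ← h5]
  have h6 := h3 k
  have h7 : |((((F D)^[k] (U a b c f n).toNat : ℕ) : ℤ) : ℝ)| =
      (((F D)^[k] (U a b c f n).toNat : ℕ) : ℝ) := by
    rw [Int.cast_natCast, abs_of_nonneg (Nat.cast_nonneg _)]
  rw [h7]
  exact h6

end Pool.Agent.R332.EX
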