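import Pool.Agent.Y927.GP.M2
import Pool.Agent.R332.EX.Adic

/-! The trajectories of the terms of exponential sequences `b a ^ (f n) + c` under a generalised Collatz
map. -/

set_option autoImplicit false

namespace Pool.Agent.R332.EX

open Finset Polynomial Pool.Agent.H319R2.M Pool.Agent.Y927.GP

/-- The exponential sequence `b a ^ (f n) + c` (for `f n ≥ 0`). -/
def U (a b c : ℤ) (f : ℤ[X]) (n : ℤ) : ℤ := b * a ^ (f.eval n).toNat + c

theorem adic {d : ℕ} (hd : 2 ≤ d) {a : ℤ} (ha : 2 ≤ |a|) (hc : IsCoprime a (d : ℤ)) :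
    ∃ k0 : ℕ, ∀ h : ℕ, 0 < h → ∀ N : ℕ, ((d : ℤ) ^ (N + k0) ∣ a ^ h - 1) → (d : ℤ) ^ N ∣ (h : ℤ) := by
  classical
  have h1 : ∀ p ∈ d.primeFactors, ∃ k0 : ℕ, ∀ h : ℕ, 0 < h → ∀ M : ℕ,
      ((p : ℤ) ^ M ∣ a ^ h - 1) → (p : ℤ) ^ (M - k0) ∣ (h : ℤ) := by
    intro p hp
    rw [Nat.mem_primeFactors] at hp
    apply prime_case hp.1 ha
    intro hpa
    have hpd : (p : ℤ) ∣ (d : ℤ) := Int.natCast_dvd_natCast.mpr hp.2.1
    have h2 := hc.isUnit_of_dvd' hpa hpd
    rw [Int.isUnit_iff] at h2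
    have h3 := hp.1.two_le
    omega
  choose! k hk using h1
  refine ⟨∑ p ∈ d.primeFactors, k p, fun h hh N hN => ?_⟩
  apply pow_dvd_of_primes (by omega) (by exact_mod_cast hh.ne')
  intro p hp hpd
  have hpf : p ∈ d.primeFactors := by
    rw [Nat.mem_primeFactors]
    exact ⟨hp, hpd, by omega⟩
  have hv : 1 ≤ d.factorization p := hp.factorization_pos_of_dvd (by omega) hpd
  have hkp : k p ≤ ∑ p ∈ d.primeFactors, k p := Finset.single_le_sum (fun _ _ => Nat.zero_le _) hpf
  set k0 := ∑ p ∈ d.primeFactors, k p with hk0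
  have h2 : (p : ℤ) ^ (d.factorization p * (N + k0)) ∣ a ^ h - 1 := by
    refine dvd_trans ?_ hN
    rw [pow_mul]
    apply pow_dvd_pow_of_dvd
    have := Nat.ordProj_dvd d p
    exact_mod_cast this
  have h3 := hk p hpf h hh _ h2
  refine dvd_trans (pow_dvd_pow _ ?_) h3
  have h4 : k0 ≤ d.factorization p * k0 := Nat.le_mul_of_pos_left _ hv
  rw [mul_add]
  omega

theorem spread {d : ℕ} (hd : 2 ≤ d) {a : ℤ} (hac : IsCoprime a (d : ℤ)) {k0 : ℕ}
    (hk : ∀ h : ℕ, 0 < h → ∀ N : ℕ, ((d : ℤ) ^ (N + k0) ∣ a ^ h - 1) → (d : ℤ) ^ N ∣ (h : ℤ))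
    {b c : ℤ} (hb : IsCoprime b (d : ℤ)) {f : ℤ[X]} {N : ℕ} {n n' : ℤ} (h0 : 0 ≤ f.eval n)
    (h0' : 0 ≤ f.eval n') (h : U a b c f n % (d : ℤ) ^ (N + k0) = U a b c f n' % (d : ℤ) ^ (N + k0)) :
    f.eval n % (d : ℤ) ^ N = f.eval n' % (d : ℤ) ^ N := by
  wlog hle : (f.eval n).toNat ≤ (f.eval n').toNat generalizing n n' with H
  · exact (H h0' h0 h.symm (by omega)).symm
  rcases hle.eq_or_lt with he | hlt
  · have : f.eval n = f.eval n' := by omega
    rw [this]
  set s := (f.eval n).toNat with hs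
  set s' := (f.eval n').toNat with hs'
  obtain ⟨t, ht⟩ : ∃ t, s' = s + t := ⟨s' - s, by omega⟩
  have h1 : (d : ℤ) ^ (N + k0) ∣ U a b c f n' - U a b c f n := Int.ModEq.dvd h
  have h2 : U a b c f n' - U a b c f n = b * a ^ s * (a ^ t - 1) := by
    unfold U
    rw [← hs, ← hs', ht, pow_add]
    ring
  rw [h2] at h1
  have h3 : IsCoprime ((d : ℤ) ^ (N + k0)) (b * a ^ s) :=
    (IsCoprime.mul_left hb hac.pow_left).pow_right.symm
  have h4 := h3.dvd_of_dvd_mul_left h1
  have h5 := hk t (by omega) N h4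
  have h6 : f.eval n' - f.eval n = (t : ℤ) := by omega
  rw [← h6] at h5
  exact (Int.modEq_iff_dvd.mpr h5)

theorem card_factor {α β γ : Type} [DecidableEq β] [DecidableEq γ] (A : Finset α) (φ : α → β)
    (ψ : α → γ) (h : ∀ x ∈ A, ∀ y ∈ A, ψ x = ψ y → φ x = φ y) :
    (A.image φ).card ≤ (A.image ψ).card := by
  classical
  rcases A.eq_empty_or_nonempty with rfl | ⟨x0, hx0⟩
  · simp
  haveI : Nonempty α := ⟨x0⟩
  have h1 : ∀ b ∈ A.image φ, ∃ x ∈ A, φ x = b := fun b hb => Finset.mem_image.1 hb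
  choose! r hr hr2 using h1
  apply Finset.card_le_card_of_injOn (fun b => ψ (r b))
  · intro b hb
    exact Finset.mem_coe.2 (Finset.mem_image_of_mem _ (hr b hb))
  · intro b hb b' hb' hbb
    have := h _ (hr b hb) _ (hr b' hb') hbb
    rw [hr2 b hb, hr2 b' hb'] at this
    exact this

theorem few_exp {f : ℤ[X]} (hdeg : 1 ≤ f.natDegree) {a b c : ℤ} (ha : 2 ≤ |a|) (hb : b ≠ 0) {Z : ℝ}
    (hZ : 1 ≤ Z) {A : Finset ℤ} (hA : ∀ n ∈ A, 0 ≤ f.eval n ∧ |((U a b c f n : ℤ) : ℝ)| < Z) :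
    (A.card : ℝ) ≤ f.natDegree * (4 + 2 * Real.log Z) := by
  classical
  set φ : ℤ → ℕ := fun n => (f.eval n).toNat with hφ
  have hlogZ : 0 ≤ Real.log Z := Real.log_nonneg hZ
  -- the fibres
  have h1 : A.card ≤ f.natDegree * (A.image φ).card := by
    apply Finset.card_le_mul_card_image
    intro t _
    have hne : f - Polynomial.C (t : ℤ) ≠ 0 := by
      intro h
      have : f = Polynomial.C (t : ℤ) := sub_eq_zero.mp h
      rw [this, natDegree_C] at hdeg
      omega
    have hsub : A.filter (fun n => φ n = t) ⊆ (f - Polynomial.C (t : ℤ)).roots.toFinset := by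
      intro n hn
      rw [Finset.mem_filter] at hn
      rw [Multiset.mem_toFinset, mem_roots hne, IsRoot.def, eval_sub, eval_C]
      have h2 := (hA n hn.1).1
      have h3 : (f.eval n).toNat = t := hn.2
      omega
    calc (A.filter (fun n => φ n = t)).card ≤ (f - Polynomial.C (t : ℤ)).roots.toFinset.card :=
          Finset.card_le_card hsub
      _ ≤ Multiset.card (f - Polynomial.C (t : ℤ)).roots := Multiset.toFinset_card_le _
      _ ≤ (f - Polynomial.C (t : ℤ)).natDegree := card_roots' _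
      _ = f.natDegree := natDegree_sub_C
  -- the exponents
  have h2 : ((A.image φ).card : ℝ) ≤ 4 + 2 * Real.log Z := by
    rcases (A.image φ).eq_empty_or_nonempty with h | hne
    · rw [h, card_empty, Nat.cast_zero]
      linarith
    set e0 := (A.image φ).min' hne with he0
    have he0m : e0 ∈ A.image φ := Finset.min'_mem _ _
    have hsub : (A.image φ).erase e0 ⊆ range (⌊2 + 2 * Real.log Z⌋₊ + 1) := by
      intro e he
      rw [Finset.mem_erase] at he
      obtain ⟨hne', hem⟩ := he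
      have hlt : e0 < e := lt_of_le_of_ne (Finset.min'_le _ _ hem) (Ne.symm hne')
      obtain ⟨n, hn, hne1⟩ := Finset.mem_image.1 hem
      obtain ⟨n0, hn0, hne0⟩ := Finset.mem_image.1 he0m
      have hu := (hA n hn).2
      have hu0 := (hA n0 hn0).2
      have e1 : U a b c f n = b * a ^ e + c := by
        unfold U
        rw [show (f.eval n).toNat = e from hne1]
      have e2 : U a b c f n0 = b * a ^ e0 + c := by
        unfold U
        rw [show (f.eval n0).toNat = e0 from hne0]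
      rw [e1] at hu
      rw [e2] at hu0
      obtain ⟨t, ht⟩ : ∃ t, e = e0 + (t + 1) := ⟨e - e0 - 1, by omega⟩
      have haR : (2 : ℝ) ≤ |(a : ℝ)| := by exact_mod_cast ha
      have hbR : (1 : ℝ) ≤ |(b : ℝ)| := by exact_mod_cast Int.one_le_abs hb
      have h3 : |(b : ℝ) * a ^ e - b * a ^ e0| < 2 * Z := by
        have h4 : (b : ℝ) * a ^ e - b * a ^ e0 = (((b * a ^ e + c : ℤ) : ℝ)) -
            (((b * a ^ e0 + c : ℤ) : ℝ)) := by push_cast; ring
        rw [h4]
        refine lt_of_le_of_lt (abs_sub _ _) ?_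
        linarith
      have h5 : |(b : ℝ)| * (|(a : ℝ)| ^ e - |(a : ℝ)| ^ e0) ≤ |(b : ℝ) * a ^ e - b * a ^ e0| := by
        rw [← mul_sub, abs_mul]
        apply mul_le_mul_of_nonneg_left _ (abs_nonneg _)
        have := abs_sub_abs_le_abs_sub ((a : ℝ) ^ e) ((a : ℝ) ^ e0)
        rwa [abs_pow, abs_pow] at this
      have h6 : 2 * |(a : ℝ)| ^ e0 ≤ |(a : ℝ)| ^ e := by
        rw [ht, pow_add, mul_comm]
        apply mul_le_mul_of_nonneg_left _ (by positivity)
        calc (2 : ℝ) ≤ |(a : ℝ)| := haR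
          _ = |(a : ℝ)| ^ 1 := (pow_one _).symm
          _ ≤ |(a : ℝ)| ^ (t + 1) := pow_le_pow_right₀ (by linarith) (by omega)
      have h7 : (2 : ℝ) ^ e ≤ |(a : ℝ)| ^ e := pow_le_pow_left₀ (by norm_num) haR e
      have h8 : (2 : ℝ) ^ e < 4 * Z := by nlinarith
      have h9 : (e : ℝ) * Real.log 2 < Real.log 4 + Real.log Z := by
        rw [← Real.log_mul (by norm_num) (by linarith), ← Real.log_pow]
        exact Real.log_lt_log (by positivity) h8
      have h10 : Real.log 4 = 2 * Real.log 2 := by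
        rw [← Real.log_rpow (by norm_num)]
        norm_num
      have h11 : (1 : ℝ) / 2 ≤ Real.log 2 := by
        have := Real.log_two_gt_d9
        linarith
      rw [Finset.mem_range, Nat.lt_add_one_iff]
      apply Nat.le_floor
      by_contra hcon
      push Not at hcon
      nlinarith
    have h3 : (A.image φ).card = ((A.image φ).erase e0).card + 1 :=
      (Finset.card_erase_add_one he0m).symm
    have h4 := Finset.card_le_card hsub
    rw [card_range] at h4
    have h5 : ((⌊2 + 2 * Real.log Z⌋₊ : ℕ) : ℝ) ≤ 2 + 2 * Real.log Z := Nat.floor_le (by linarith)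
    have h6 : (((A.image φ).erase e0).card : ℝ) ≤ (⌊2 + 2 * Real.log Z⌋₊ : ℝ) + 1 := by
      exact_mod_cast h4
    rw [h3]
    push_cast
    linarith
  calc (A.card : ℝ) ≤ f.natDegree * (A.image φ).card := by exact_mod_cast h1
    _ ≤ f.natDegree * (4 + 2 * Real.log Z) := by gcongr

end Pool.Agent.R332.EX
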