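import Pool.Agent.R332.EX.Law

/-! Möller's maps along exponential sequences. -/

set_option autoImplicit false

namespace Pool.Agent.R332.EX

open Finset Polynomial Pool.Agent.H319R2 Pool.Agent.Y927.GP Pool.Agent.Y927.GP.Mo

variable {d m : ℕ} {r : ℤ → ℤ}

theorem desc_exp (hd : 2 ≤ d) (hm : 2 ≤ m) (hc : Nat.Coprime m d)
    (hle : (m : ℝ) ≤ (d : ℝ) ^ ((d : ℝ) / ((d : ℝ) - 1)))
    (hr : ∀ j : ℤ, 1 ≤ j → j < d → (d : ℤ) ∣ m * j - r j) {f : ℤ[X]} (hdeg : 1 ≤ f.natDegree)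
    {a : ℤ} (ha : 2 ≤ |a|) (hac : IsCoprime a (d : ℤ)) {ε : ℝ} (hε : 0 < ε) :
    ∃ δ K : ℝ, 0 < δ ∧ δ < 1 ∧ 0 < K ∧ ∀ b c : ℤ, IsCoprime b (d : ℤ) →
      ∀ (X : ℤ) (Y : ℝ), 1 ≤ Y → ∀ A : Finset ℤ, A ⊆ Ioc X (X + ⌊Y⌋₊) →
        (∀ n ∈ A, 0 ≤ f.eval n ∧ 0 < U a b c f n ∧ ¬ (d : ℤ) ∣ U a b c f n ∧ ∀ k : ℕ,
          Def d m r (U a b c f n) k → 0 < (H d m r)^[k] (U a b c f n) →
            Y ^ (-kap d m + ε) * ((U a b c f n : ℤ) : ℝ) <
              (((H d m r)^[k] (U a b c f n) : ℤ) : ℝ)) → (A.card : ℝ) ≤ K * Y ^ (1 - δ) := by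
  classical
  have D := data (r := r) hd hc hr
  have hC := cls (m := m) (r := r) hd
  obtain ⟨hκ0, hκ1⟩ := kap_bounds hd hm hc hle
  have hmu := mu_kap hd D
  set κ := kap d m with hκ
  have hd1 : (1 : ℝ) < d := by exact_mod_cast (by omega : 1 < d)
  have hd0 : (0 : ℝ) < d := by linarith
  have hdeg1 : (1 : ℝ) ≤ f.natDegree := by exact_mod_cast hdeg
  obtain ⟨δ, K, hδ0, hδ1, hK, hmain⟩ := law (Leigh.gm_fac D) (Leigh.gm_cls D hC) hdeg ha hac
    (ε := ε / 2) (by positivity)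
  have h1δ : 0 < 1 - δ := by linarith
  set B : ℝ := (bd d r : ℝ) + 1 with hB
  have hbd0 : (0 : ℝ) ≤ (bd d r : ℝ) := Nat.cast_nonneg _
  have hB1 : 1 ≤ B := by linarith
  set Y1 : ℝ := (d : ℝ) ^ (2 * κ / ε) with hY1
  have hY10 : 0 < Y1 := by positivity
  set C3 : ℝ := f.natDegree * (4 + 2 * (Real.log B + κ / (1 - δ))) with hC3
  have hlogB : 0 ≤ Real.log B := Real.log_nonneg hB1
  have hC30 : 0 ≤ C3 := by positivity
  refine ⟨δ, K + C3 + Y1, hδ0, hδ1, by positivity, ?_⟩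
  intro b c hb X Y hY A hA hE
  have hb0 : b ≠ 0 := by
    rintro rfl
    rw [isCoprime_zero_left, Int.isUnit_iff] at hb
    omega
  have hYp : 0 < Y := by linarith
  have hY1' : 1 ≤ Y ^ (1 - δ) := Real.one_le_rpow hY (by linarith)
  rcases lt_or_ge Y Y1 with hsmall | hbig
  · have h1 : (A.card : ℝ) ≤ Y := by
      have h2 := Finset.card_le_card hA
      rw [Int.card_Ioc] at h2
      have h3 : (X + ⌊Y⌋₊ - X).toNat = ⌊Y⌋₊ := by omega
      rw [h3] at h2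
      have h4 : (A.card : ℝ) ≤ ⌊Y⌋₊ := by exact_mod_cast h2
      exact h4.trans (Nat.floor_le hYp.le)
    calc (A.card : ℝ) ≤ Y1 * 1 := by linarith
      _ ≤ Y1 * Y ^ (1 - δ) := by gcongr
      _ ≤ _ := by
          apply mul_le_mul_of_nonneg_right _ (by positivity)
          linarith
  set Z : ℝ := B * Y ^ κ with hZ
  have hYκ : 1 ≤ Y ^ κ := Real.one_le_rpow hY hκ0.le
  have hZ1 : 1 ≤ Z := by nlinarith
  set A1 := A.filter (fun n : ℤ => |((U a b c f n : ℤ) : ℝ)| < Z) with hA1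
  set A2 := A.filter (fun n : ℤ => ¬ |((U a b c f n : ℤ) : ℝ)| < Z) with hA2
  have h1 : (A1.card : ℝ) ≤ C3 * Y ^ (1 - δ) := by
    have h2 := few_exp hdeg ha hb0 (c := c) hZ1 (A := A1) (by
      intro n hn
      rw [hA1, mem_filter] at hn
      exact ⟨(hE n hn.1).1, hn.2⟩)
    refine h2.trans ?_
    have h3 : Real.log Z = Real.log B + κ * Real.log Y := by
      rw [hZ, Real.log_mul (by linarith) (by positivity), Real.log_rpow hYp]
    have h4 : Real.log Y ≤ Y ^ (1 - δ) / (1 - δ) := Real.log_le_rpow_div hYp.le h1δ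
    have h5 : κ * Real.log Y ≤ κ / (1 - δ) * Y ^ (1 - δ) := by
      calc κ * Real.log Y ≤ κ * (Y ^ (1 - δ) / (1 - δ)) := mul_le_mul_of_nonneg_left h4 hκ0.le
        _ = κ / (1 - δ) * Y ^ (1 - δ) := by ring
    have h6 : Real.log B ≤ Real.log B * Y ^ (1 - δ) := le_mul_of_one_le_right hlogB hY1'
    rw [h3, hC3, mul_assoc]
    apply mul_le_mul_of_nonneg_left _ (Nat.cast_nonneg _)
    nlinarith
  have h2 : (A2.card : ℝ) ≤ K * Y ^ (1 - δ) := by
    apply hmain b c hb X Y hY A2 ((filter_subset _ _).trans hA)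
    intro n hn
    rw [hA2, mem_filter] at hn
    obtain ⟨hnA, hnZ⟩ := hn
    push Not at hnZ
    obtain ⟨hf0, hy0, hyd, hEy⟩ := hE n hnA
    refine ⟨hf0, mem_S hd _, fun htyp => ?_⟩
    set y := U a b c f n with hy
    obtain ⟨N, hN1, hN2, -⟩ := scale d hd Y hY
    have h3 := (htyp N hN1).2
    have hyr : (0 : ℝ) < (y : ℝ) := by exact_mod_cast hy0
    rw [abs_of_pos hyr] at h3 hnZ
    -- the term of the `T`-orbit is small
    have h4 : |(((Leigh.gm D).T^[N] y : ℤ) : ℝ)| ≤ Y ^ (-κ + ε) * y := by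
      refine h3.trans ?_
      rw [exp_pow hd hmu]
      have h6 : Y / d ≤ (d : ℝ) ^ N := by
        rw [div_le_iff₀ hd0]
        rw [pow_succ] at hN2; exact hN2.le
      have h7 : ((d : ℝ) ^ N) ^ (-κ) ≤ (d : ℝ) ^ κ * Y ^ (-κ) := by
        calc ((d : ℝ) ^ N) ^ (-κ) ≤ (Y / d) ^ (-κ) :=
              Real.rpow_le_rpow_of_nonpos (by positivity) h6 (by linarith)
          _ = (d : ℝ) ^ κ * Y ^ (-κ) := by
              rw [Real.div_rpow hYp.le hd0.le, Real.rpow_neg hd0.le κ, div_inv_eq_mul, mul_comm]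
      have h8 : (d : ℝ) ^ κ ≤ Y ^ (ε / 2) := by
        calc (d : ℝ) ^ κ = Y1 ^ (ε / 2) := by
              rw [hY1, ← Real.rpow_mul hd0.le]
              congr 1
              field_simp
          _ ≤ Y ^ (ε / 2) := Real.rpow_le_rpow hY10.le hbig (by positivity)
      calc Y ^ (ε / 2) * ((d : ℝ) ^ N) ^ (-κ) * y ≤ Y ^ (ε / 2) * ((d : ℝ) ^ κ * Y ^ (-κ)) * y := by
            gcongr
        _ ≤ Y ^ (ε / 2) * (Y ^ (ε / 2) * Y ^ (-κ)) * y := by gcongr
        _ = Y ^ (-κ + ε) * y := by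
            rw [← Real.rpow_add hYp, ← Real.rpow_add hYp]
            congr 2
            ring
    have hTT : (Leigh.gm D).T = T d m r := by rw [Leigh.gm_T, T_eq]
    rw [hTT] at h4
    obtain ⟨k, hk1, hk2, hk3⟩ := key hd (by omega) hr (le_bd (d := d) (r := r)) hy0 hyd N
    have h5 : (((H d m r)^[k] y : ℤ) : ℝ) ≤ Y ^ (-κ + ε) * y := by
      rcases hk3 with ⟨s, hs, -⟩ | hk3
      · have h6 : (H d m r)^[k] y ≤ (T d m r)^[N] y := by
          rw [hs]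
          have : (1 : ℤ) ≤ (d : ℤ) ^ s := one_le_pow₀ (by omega)
          nlinarith
        have h7 : (((T d m r)^[N] y : ℤ) : ℝ) ≤ Y ^ (-κ + ε) * y := (le_abs_self _).trans h4
        have h8 : (((H d m r)^[k] y : ℤ) : ℝ) ≤ (((T d m r)^[N] y : ℤ) : ℝ) := by exact_mod_cast h6
        exact h8.trans h7
      · have h6 : (((H d m r)^[k] y : ℤ) : ℝ) ≤ (bd d r : ℝ) := by exact_mod_cast hk3
        have h7 : Y ^ (-κ) * Z = B := by
          rw [hZ, mul_comm B, ← mul_assoc, ← Real.rpow_add hYp, neg_add_cancel, Real.rpow_zero,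
            one_mul]
        have h8 : Y ^ (-κ) ≤ Y ^ (-κ + ε) := Real.rpow_le_rpow_of_exponent_le hY (by linarith)
        calc (((H d m r)^[k] y : ℤ) : ℝ) ≤ (bd d r : ℝ) := h6
          _ ≤ B := by linarith
          _ = Y ^ (-κ) * Z := h7.symm
          _ ≤ Y ^ (-κ + ε) * y := by gcongr
    have h6 := hEy k hk1 hk2
    linarith
  have h3 : A1.card + A2.card = A.card := Finset.card_filter_add_card_filter_not _
  have h4 : (A.card : ℝ) = A1.card + A2.card := by rw [← h3]; push_cast; rfl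
  rw [h4]
  calc (A1.card : ℝ) + A2.card ≤ C3 * Y ^ (1 - δ) + K * Y ^ (1 - δ) := add_le_add h1 h2
    _ ≤ (K + C3 + Y1) * Y ^ (1 - δ) := by
        have : 0 ≤ Y1 * Y ^ (1 - δ) := by positivity
        nlinarith

end Pool.Agent.R332.EX
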